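import Pool.Agent.Y8.Stm9
import Pool.Agent.Y496.NS.TU

/-!
The count in a time interval with absolute constants (job S_TV1, S_TV of helper8;
`t_TV1`, `t_TV` follow `t_TU1`, `t_TU` of `Pool.Agent.Y496.NS.TU`).
-/

open MeasureTheory Set Metric
open scoped ContDiff

namespace Pool.Agent.Y419.NSM

open H459R3.NS W221.NS Pool.Agent.Y8 Pool.Agent.Y496.NS.TU

theorem hk3_aux {k q : ℝ} (h1 : 1 < q) (hk : k ≤ q + 1) :
    k * (16 ^ 3)⁻¹ ≤ 16 * (q / 64) ^ 2 := by
  have e : (16:ℝ) * (q / 64) ^ 2 = q ^ 2 / 256 := by ring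
  have e2 : k * ((16:ℝ) ^ 3)⁻¹ = k / 4096 := by
    rw [div_eq_mul_inv]; norm_num
  rw [e, e2]
  nlinarith

/-- The count on a short time interval, with restriction. -/
theorem winM (hR : S_RESTR) {C δ₀ : ℝ}
    (hW : ∀ (T E D : ℝ) (G : Set ℝ) (u : ℝ → V → V) (p : ℝ → V → ℝ), Turb 1 T E D G u p →
    ∀ (n i : ℕ) (α β : ℝ), (1 + E ^ 2) * rr n ≤ δ₀ → 3 ≤ i → β - α ≤ rr (n + i) ^ 2 → rr n ^ 2 < α →
      β + rr n ^ 2 < T → ∀ S : Finset (ℝ × V), Sep (rr n) S →
        (∀ z ∈ S, z.1 ∈ Icc α β ∧ z.2 ∈ cube ∧ SingPt G u z.1 z.2) →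
          (S.card : ℝ) ≤ C * (D + E ^ 2 * (16 ^ i)⁻¹) * 2 ^ n)
    {T E D : ℝ} {G : Set ℝ} {u : ℝ → V → V} {p : ℝ → V → ℝ} (hT : Turb 1 T E D G u p)
    {n i : ℕ} {α β κ : ℝ} (hn : (1 + E ^ 2) * rr n ≤ δ₀) (hi : 3 ≤ i) (hαβ : α ≤ β) (hab : β - α ≤ rr (n + i) ^ 2)
    (hκ : rr n ^ 2 < κ) (hα : κ ≤ α) (hβ : β + κ ≤ T) (S : Finset (ℝ × V)) (hS : Sep (rr n) S)
    (hz : ∀ z ∈ S, z.1 ∈ Icc α β ∧ z.2 ∈ cube ∧ SingPt G u z.1 z.2) :
    (S.card : ℝ) ≤ C * ((∫ t in Ioo (α - κ) (β + κ), enstrophy (u t)) +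
      E ^ 2 * (16 ^ i)⁻¹) * 2 ^ n := by
  have hrn := rr_pos n
  have hκ0 : 0 < κ := lt_of_le_of_lt (by positivity) hκ
  set a : ℝ := α - κ with ha
  set b : ℝ := β + κ with hb
  have ha0 : 0 ≤ a := by rw [ha]; linarith
  have hab' : a < b := by rw [ha, hb]; linarith
  obtain ⟨hT', hsing⟩ := hR 1 T E D G u p hT a b ha0 hab' hβ
  classical
  set f : ℝ × V → ℝ × V := fun z => (z.1 - a, z.2) with hf
  have hinj : Function.Injective f := by
    rintro ⟨t, x⟩ ⟨t', x'⟩ hh
    simp only [hf, Prod.mk.injEq] at hh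
    obtain ⟨h1, h2⟩ := hh
    rw [show t = t' by linarith, h2]
  have hcard : (S.image f).card = S.card := Finset.card_image_of_injective S hinj
  have hsep : Sep (rr n) (S.image f) := by
    intro z hz' w hw' hne
    obtain ⟨z, hzS, rfl⟩ := Finset.mem_image.1 hz'
    obtain ⟨w, hwS, rfl⟩ := Finset.mem_image.1 hw'
    have hne' : z ≠ w := fun e => hne (by rw [e])
    have e1 : (f z).1 - (f w).1 = z.1 - w.1 := by
      show z.1 - a - (w.1 - a) = z.1 - w.1
      ring
    rw [e1]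
    exact hS z hzS w hwS hne'
  have hpts : ∀ z ∈ S.image f, z.1 ∈ Icc (α - a) (β - a) ∧ z.2 ∈ cube ∧
      SingPt {t | t ∈ Ioo 0 (b - a) ∧ a + t ∈ G} (fun t => u (a + t)) z.1 z.2 := by
    intro z hz'
    obtain ⟨z, hzS, rfl⟩ := Finset.mem_image.1 hz'
    obtain ⟨h2, h3, h4⟩ := hz z hzS
    refine ⟨⟨?_, ?_⟩, h3, hsing z.1 z.2 ⟨?_, ?_⟩ h4⟩
    · show α - a ≤ z.1 - a
      linarith [h2.1]
    · show z.1 - a ≤ β - a
      linarith [h2.2]
    · linarith [h2.1]
    · linarith [h2.2]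
  have h2 := hW _ _ _ _ _ _ hT' n i (α - a) (β - a) hn hi (by linarith) (by linarith)
    (by linarith) (S.image f) hsep hpts
  rw [hcard] at h2
  exact h2

theorem t_TV1 : S_RESTR → S_FINM → S_WINM → S_TV1 := by
  intro hR hF hW
  obtain ⟨CF, δF, hCF, hδF, hF⟩ := hF
  obtain ⟨CW, δW, hCW, hδW, hW⟩ := hW
  set A : ℝ := CW * 2 with hA
  have hA0 : 0 < A := by positivity
  refine ⟨CF + A * (193 + 16 * 16), min (min δF δW) 1, by positivity, by positivity, ?_⟩
  intro T E D G u p hT r α β hr hrδ hαβ hα hβ S hS hz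
  have hrF : (1 + E ^ 2) * r ≤ δF := hrδ.trans ((min_le_left _ _).trans (min_le_left _ _))
  have hrW : (1 + E ^ 2) * r ≤ δW := hrδ.trans ((min_le_left _ _).trans (min_le_right _ _))
  have hrE : (1 + E ^ 2) * r ≤ 1 := hrδ.trans (min_le_right _ _)
  have hr1 : r ≤ 1 := by nlinarith [mul_nonneg (sq_nonneg E) hr.le]
  have hE2 : 0 ≤ E ^ 2 := sq_nonneg E
  have hr2 : 0 < r ^ 2 := by positivity
  set a : ℝ := α - 2 * r ^ 2 with ha
  set b : ℝ := β + 2 * r ^ 2 with hb
  have ha0 : 0 ≤ a := by rw [ha]; linarith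
  have hab : a < b := by rw [ha, hb]; linarith
  have hion := enst_ion hT ha0 hβ.le
  have hY0 : 0 ≤ ∫ t in Ioo a b, enstrophy (u t) := integral_nonneg fun t => Pool.Agent.Y8.enst_nn (u t)
  set IY : ℝ := ∫ t in Ioo a b, enstrophy (u t) with hIY
  set h : ℝ := β - α with hh
  have hh0 : 0 ≤ h := by rw [hh]; linarith
  -- the first bound
  have hb1 : (S.card : ℝ) * r ≤ CF * (IY + (E ^ 2 / r) ^ (2 / 23 : ℝ) * IY) := by
    obtain ⟨hT', hsing⟩ := hR 1 T E D G u p hT a b ha0 hab hβ.le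
    classical
    set f : ℝ × V → ℝ × V := fun z => (z.1 - a, z.2) with hf
    have hinj : Function.Injective f := by
      rintro ⟨t, x⟩ ⟨t', x'⟩ hh
      simp only [hf, Prod.mk.injEq] at hh
      obtain ⟨h1, h2⟩ := hh
      rw [show t = t' by linarith, h2]
    have hcard : (S.image f).card = S.card := Finset.card_image_of_injective S hinj
    have hsep : Sep r (S.image f) := by
      intro z hz' w hw' hne
      obtain ⟨z, hzS, rfl⟩ := Finset.mem_image.1 hz'
      obtain ⟨w, hwS, rfl⟩ := Finset.mem_image.1 hw'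
      have hne' : z ≠ w := fun e => hne (by rw [e])
      have e1 : (f z).1 - (f w).1 = z.1 - w.1 := by
        show z.1 - a - (w.1 - a) = z.1 - w.1
        ring
      rw [e1]
      exact hS z hzS w hwS hne'
    have h1 := hF _ _ _ _ _ _ hT' r hr hrF (S.image f) hsep (by
      intro z hz'
      obtain ⟨z, hzS, rfl⟩ := Finset.mem_image.1 hz'
      obtain ⟨h2, h3, h4⟩ := hz z hzS
      refine ⟨?_, ?_, h3, hsing z.1 z.2 ⟨?_, ?_⟩ h4⟩
      · show 0 < z.1 - a - r ^ 2
        linarith [h2.1]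
      · show z.1 - a + r ^ 2 < b - a
        linarith [h2.2]
      · linarith [h2.1]
      · linarith [h2.2])
    rw [hcard] at h1
    calc (S.card : ℝ) * r ≤ CF * IY * (1 + (E ^ 2 / r) ^ (2 / 23 : ℝ)) := h1
      _ = _ := by ring
  -- the scale
  obtain ⟨m, hm1, hm2⟩ := exists_nat_pow_near_of_lt_one hr hr1 (by norm_num : (0 : ℝ) < 1 / 2)
    (by norm_num : (1 / 2 : ℝ) < 1)
  set n : ℕ := m + 1 with hn
  have hrnr : rr n ≤ r := hm1.le
  have hrr : r ≤ 2 * rr n := by
    rw [hn]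
    unfold rr
    rw [pow_succ]
    linarith
  have hrn := rr_pos n
  have h2n : (2:ℝ) ^ n = (rr n)⁻¹ := by
    unfold rr
    rw [one_div, inv_pow, inv_inv]
  have hr2n : r * 2 ^ n ≤ 2 := by
    rw [h2n, ← div_eq_mul_inv, div_le_iff₀ hrn]
    exact hrr
  have hrr2 : rr n ^ 2 ≤ r ^ 2 := pow_le_pow_left₀ hrn.le hrnr 2
  have hn₀ : (1 + E ^ 2) * rr n ≤ δW :=
    (mul_le_mul_of_nonneg_left hrnr (by positivity)).trans hrW
  have hhr : h / rr n ^ 2 ≤ 4 * (h / r ^ 2) := by
    rw [mul_div_assoc', div_le_div_iff₀ (by positivity) hr2]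
    have h1 : r ^ 2 ≤ (2 * rr n) ^ 2 := pow_le_pow_left₀ hr.le hrr 2
    calc h * r ^ 2 ≤ h * (2 * rr n) ^ 2 := mul_le_mul_of_nonneg_left h1 hh0
      _ = _ := by ring
  have hsq : (h / rr n ^ 2) ^ 2 ≤ 16 * (h / r ^ 2) ^ 2 := by
    have h1 : 0 ≤ h / rr n ^ 2 := by positivity
    calc (h / rr n ^ 2) ^ 2 ≤ (4 * (h / r ^ 2)) ^ 2 := by gcongr
      _ = 16 * (h / r ^ 2) ^ 2 := by ring
  -- the second bound
  have hb2 : (S.card : ℝ) * r ≤ A * (193 * IY + 16 * (E ^ 2 * (h / rr n ^ 2) ^ 2)) := by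
    have hcr : ∀ X : ℝ, 0 ≤ X → (S.card : ℝ) ≤ CW * X * 2 ^ n → (S.card : ℝ) * r ≤ A * X := by
      intro X hX hc
      calc (S.card : ℝ) * r ≤ (CW * X * 2 ^ n) * r := mul_le_mul_of_nonneg_right hc hr.le
        _ = CW * X * (r * 2 ^ n) := by ring
        _ ≤ CW * X * 2 := mul_le_mul_of_nonneg_left hr2n (by positivity)
        _ = A * X := by rw [hA]; ring
    by_cases hshort : h ≤ rr (n + 3) ^ 2
    · have hwin : ∀ i : ℕ, 3 ≤ i → h ≤ rr (n + i) ^ 2 →
          (S.card : ℝ) * r ≤ A * (IY + E ^ 2 * (16 ^ i)⁻¹) := by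
        intro i hi hhi
        refine hcr _ (by positivity) ?_
        exact winM hR hW hT hn₀ hi hαβ hhi (κ := 2 * r ^ 2) (by linarith) hα.le hβ.le S
          (sep_mono hS hrn.le hrnr subset_rfl) hz
      have hIY193 : IY ≤ 193 * IY := by linarith
      rcases hh0.eq_or_lt with h0 | h0
      · have hlim : (S.card : ℝ) * r ≤ A * IY := by
          refine le_of_forall_pos_le_add fun ε hε => ?_
          obtain ⟨i, hi⟩ := exists_pow_lt_of_lt_one (by positivity : 0 < ε / (A * (1 + E ^ 2)))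
            (by norm_num : (1 / 16 : ℝ) < 1)
          have h1 := hwin (i + 3) (by omega) (by rw [← h0]; positivity)
          have h2 : ((16:ℝ) ^ (i + 3))⁻¹ ≤ ε / (A * (1 + E ^ 2)) := by
            calc ((16:ℝ) ^ (i + 3))⁻¹ = (1 / 16 : ℝ) ^ (i + 3) := by
                  rw [one_div, inv_pow]
              _ ≤ (1 / 16 : ℝ) ^ i := pow_le_pow_of_le_one (by norm_num) (by norm_num) (by omega)
              _ ≤ _ := hi.le
          have h3 : E ^ 2 * ((16:ℝ) ^ (i + 3))⁻¹ ≤ ε / A := by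
            calc E ^ 2 * ((16:ℝ) ^ (i + 3))⁻¹ ≤ (1 + E ^ 2) * (ε / (A * (1 + E ^ 2))) := by
                  gcongr
                  linarith
              _ = ε / A := by
                  have : (1 + E ^ 2) ≠ 0 := by positivity
                  field_simp
          calc (S.card : ℝ) * r ≤ A * (IY + E ^ 2 * (16 ^ (i + 3))⁻¹) := h1
            _ ≤ A * (IY + ε / A) := by gcongr
            _ = A * IY + ε := by field_simp
        refine hlim.trans (mul_le_mul_of_nonneg_left ?_ hA0.le)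
        have : 0 ≤ 16 * (E ^ 2 * (h / rr n ^ 2) ^ 2) := by positivity
        linarith
      · obtain ⟨i, hi3, hi, hnum⟩ := scale_j h0 hshort
        refine (hwin i hi3 hi).trans (mul_le_mul_of_nonneg_left ?_ hA0.le)
        have h5 := mul_le_mul_of_nonneg_left hnum hE2
        linarith
    · -- long intervals
      rw [not_le] at hshort
      classical
      set l : ℝ := rr (n + 3) ^ 2 with hl
      have hl0 : 0 < l := by
        have := rr_pos (n + 3)
        positivity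
      have hrl : rr n ^ 2 = 64 * l := by
        rw [hl, rr_add]
        unfold rr
        ring
      set k : ℕ := ⌊h / l⌋₊ + 1 with hk
      have hhl : 0 ≤ h / l := by positivity
      have hk1 : (k:ℝ) ≤ h / l + 1 := by
        rw [hk]
        push_cast
        have := Nat.floor_le hhl
        linarith
      have hk2 : h / l < k := by
        rw [hk]
        push_cast
        exact Nat.lt_floor_add_one _
      have hjl : ∀ j < k, (j:ℝ) * l ≤ h := by
        intro j hj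
        have h1 : (j:ℝ) ≤ h / l := by
          have h2 : j ≤ ⌊h / l⌋₊ := by omega
          exact (Nat.cast_le.2 h2).trans (Nat.floor_le hhl)
        rwa [le_div_iff₀ hl0] at h1
      set κ : ℝ := 3 / 2 * rr n ^ 2 with hκ
      have hrn2 : 0 < rr n ^ 2 := by positivity
      set Sj : ℕ → Finset (ℝ × V) := fun j =>
        S.filter (fun z => z.1 ∈ Icc (α + j * l) (α + (j + 1) * l)) with hSj
      have hcov : S ⊆ (Finset.range k).biUnion Sj := by
        intro z hzS
        have h1 := (hz z hzS).1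
        have h2 : 0 ≤ (z.1 - α) / l := div_nonneg (by linarith [h1.1]) hl0.le
        rw [Finset.mem_biUnion]
        refine ⟨⌊(z.1 - α) / l⌋₊, ?_, ?_⟩
        · rw [Finset.mem_range, hk]
          have h3 : (z.1 - α) / l ≤ h / l := by
            rw [hh]
            gcongr
            exact h1.2
          have h4 := Nat.floor_le_floor h3
          omega
        · rw [hSj]
          refine Finset.mem_filter.2 ⟨hzS, ?_, ?_⟩
          · have h3 := Nat.floor_le h2
            rw [le_div_iff₀ hl0] at h3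
            linarith
          · have h3 := Nat.lt_floor_add_one ((z.1 - α) / l)
            rw [div_lt_iff₀ hl0] at h3
            linarith
      have hbox : ∀ j < k, a ≤ α + j * l - κ ∧ α + (j + 1) * l + κ ≤ b := by
        intro j hj
        have h1 := hjl j hj
        have h2 : 0 ≤ (j:ℝ) * l := by positivity
        constructor
        · rw [ha, hκ]
          linarith
        · rw [hb, hκ]
          have h3 : α + (j + 1) * l = α + j * l + l := by ring
          rw [h3]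
          linarith
      have hcj : ∀ j ∈ Finset.range k, ((Sj j).card : ℝ) ≤
          CW * ((∫ t in Ioo (α + j * l - κ) (α + (j + 1) * l + κ), enstrophy (u t)) +
            E ^ 2 * (16 ^ 3)⁻¹) * 2 ^ n := by
        intro j hj
        have hj' := Finset.mem_range.1 hj
        obtain ⟨h1, h2⟩ := hbox j hj'
        refine winM hR hW hT hn₀ le_rfl (α := α + j * l) (β := α + (j + 1) * l) (κ := κ) ?_ ?_ ?_ ?_
          ?_ (Sj j) (sep_mono hS hrn.le hrnr (Finset.filter_subset _ _)) ?_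
        · have h3 : α + (j + 1) * l = α + j * l + l := by ring
          rw [h3]
          linarith
        · have h3 : α + (j + 1) * l - (α + j * l) = l := by ring
          rw [h3]
        · rw [hκ]
          linarith
        · linarith
        · linarith
        · intro z hzS
          obtain ⟨h3, h4⟩ := Finset.mem_filter.1 hzS
          obtain ⟨-, h5, h6⟩ := hz z h3
          exact ⟨h4, h5, h6⟩
      have hover := overlap (Y := fun t => enstrophy (u t)) (fun t => Pool.Agent.Y8.enst_nn (u t)) hion (α := α)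
        (κ := κ) hl0 193 (by rw [hκ, hrl]; push_cast; linarith) k hbox
      have hcard : (S.card : ℝ) ≤ ∑ j ∈ Finset.range k, ((Sj j).card : ℝ) := by
        have h1 := (Finset.card_le_card hcov).trans Finset.card_biUnion_le
        exact_mod_cast h1
      have hk3 : (k:ℝ) * (16 ^ 3)⁻¹ ≤ 16 * (h / rr n ^ 2) ^ 2 := by
        have h1 : 1 < h / l := by
          rw [lt_div_iff₀ hl0]
          linarith
        have h2 : h / rr n ^ 2 = h / l / 64 := by
          rw [hrl]
          field_simp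
        rw [h2]
        exact hk3_aux h1 hk1
      refine hcr _ (by positivity) (hcard.trans ((Finset.sum_le_sum hcj).trans ?_))
      have e : ∑ j ∈ Finset.range k, CW * ((∫ t in Ioo (α + (j:ℝ) * l - κ) (α + (j + 1) * l + κ),
          enstrophy (u t)) + E ^ 2 * (16 ^ 3)⁻¹) * 2 ^ n = CW * ((∑ j ∈ Finset.range k,
          ∫ t in Ioo (α + (j:ℝ) * l - κ) (α + (j + 1) * l + κ), enstrophy (u t)) +
            k * (E ^ 2 * (16 ^ 3)⁻¹)) * 2 ^ n := by
        rw [← Finset.sum_mul, ← Finset.mul_sum, Finset.sum_add_distrib, Finset.sum_const,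
          Finset.card_range, nsmul_eq_mul]
      rw [e]
      refine mul_le_mul_of_nonneg_right (mul_le_mul_of_nonneg_left ?_ hCW.le) (by positivity)
      have hover' : ∑ j ∈ Finset.range k,
          ∫ t in Ioo (α + (j:ℝ) * l - κ) (α + (j + 1) * l + κ), enstrophy (u t) ≤ 193 * IY := by
        have := hover
        push_cast at this
        exact this
      have h5 := mul_le_mul_of_nonneg_left hk3 hE2
      have h6 : (k:ℝ) * (E ^ 2 * (16 ^ 3)⁻¹) = E ^ 2 * (k * (16 ^ 3)⁻¹) := by ring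
      rw [h6]
      linarith
  have hb3 : (S.card : ℝ) * r ≤ A * (193 + 16 * 16) * (IY + E ^ 2 * (h / r ^ 2) ^ 2) := by
    refine hb2.trans ?_
    rw [mul_assoc A]
    refine mul_le_mul_of_nonneg_left ?_ hA0.le
    have h1 : 0 ≤ E ^ 2 * (h / r ^ 2) ^ 2 := by positivity
    have h2 := mul_le_mul_of_nonneg_left hsq hE2
    nlinarith
  -- the minimum
  rcases le_total ((E ^ 2 / r) ^ (2 / 23 : ℝ) * IY) (E ^ 2 * (h / r ^ 2) ^ 2) with hle | hle
  · rw [min_eq_left hle]
    have h1 : 0 ≤ (E ^ 2 / r) ^ (2 / 23 : ℝ) * IY := by positivity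
    refine hb1.trans ?_
    have h2 : 0 ≤ A * (193 + 16 * 16) * (IY + (E ^ 2 / r) ^ (2 / 23 : ℝ) * IY) := by positivity
    rw [add_mul]
    linarith
  · rw [min_eq_right hle]
    refine hb3.trans ?_
    have h2 : 0 ≤ CF * (IY + E ^ 2 * (h / r ^ 2) ^ 2) := by positivity
    rw [add_mul]
    linarith

theorem t_TV : S_WSCAL → S_TV1 → S_TV := by
  intro hsc hts
  obtain ⟨C, δ₀, hC, hδ₀, h⟩ := hts
  refine ⟨C, δ₀, hC, hδ₀, ?_⟩
  intro ν T E D G u p hν hT r α β hr hrδ hαβ hα hβ S hS hz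
  obtain ⟨hT', hsing⟩ := hsc ν T E D G u p hν hT
  classical
  set f : ℝ × V → ℝ × V := fun z => (ν * z.1, z.2) with hf
  have hinj : Function.Injective f := by
    rintro ⟨t, x⟩ ⟨t', x'⟩ hh
    simp only [hf, Prod.mk.injEq] at hh
    obtain ⟨h1, h2⟩ := hh
    rw [mul_left_cancel₀ hν.ne' h1, h2]
  have hcard : (S.image f).card = S.card := Finset.card_image_of_injective S hinj
  have hsep : Sep r (S.image f) := by
    intro z hz' w hw' hne
    obtain ⟨z, hzS, rfl⟩ := Finset.mem_image.1 hz'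
    obtain ⟨w, hwS, rfl⟩ := Finset.mem_image.1 hw'
    have hne' : z ≠ w := fun e => hne (by rw [e])
    rcases hS z hzS w hwS hne' with h1 | h1
    · left
      show r ^ 2 ≤ |ν * z.1 - ν * w.1|
      rw [← mul_sub, abs_mul, abs_of_pos hν]
      exact h1
    · right
      exact h1
  have h1 := h _ _ _ _ _ _ hT' r (ν * α) (ν * β) hr hrδ (mul_le_mul_of_nonneg_left hαβ hν.le)
    hα hβ (S.image f) hsep (by
    intro z hz'
    obtain ⟨z, hzS, rfl⟩ := Finset.mem_image.1 hz'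
    obtain ⟨h2, h3, h4⟩ := hz z hzS
    refine ⟨⟨?_, ?_⟩, h3, hsing z.1 z.2 h4⟩
    · exact mul_le_mul_of_nonneg_left h2.1 hν.le
    · exact mul_le_mul_of_nonneg_left h2.2 hν.le)
  rw [hcard, ← mul_sub] at h1
  set IY : ℝ := ∫ t in Ioo (α - 2 * r ^ 2 / ν) (β + 2 * r ^ 2 / ν), enstrophy (u t) with hIY
  -- the change of variables
  have ha0 : 0 ≤ α - 2 * r ^ 2 / ν := by
    have : 2 * r ^ 2 / ν < α := by
      rw [div_lt_iff₀ hν]
      linarith
    linarith
  have hb0 : β + 2 * r ^ 2 / ν ≤ T := by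
    have e1 : ν * (2 * r ^ 2 / ν) = 2 * r ^ 2 := by field_simp
    have e2 : ν * (β + 2 * r ^ 2 / ν) < ν * T := by
      rw [mul_add, e1]
      exact hβ
    exact (lt_of_mul_lt_mul_left e2 hν.le).le
  have hr2 : 0 ≤ 2 * r ^ 2 / ν := by positivity
  have hab : α - 2 * r ^ 2 / ν ≤ β + 2 * r ^ 2 / ν := by linarith
  have hion := enst_ion hT ha0 hb0
  have h1i : IntegrableOn (fun _ : ℝ => (1 : ℝ)) (Ioo (α - 2 * r ^ 2 / ν) (β + 2 * r ^ 2 / ν)) :=
    integrableOn_const (by simp)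
  have hchg : ∀ g : ℝ → ℝ, ∫ t in Ioo (ν * α - 2 * r ^ 2) (ν * β + 2 * r ^ 2), g (t / ν) =
      ν * ∫ t in Ioo (α - 2 * r ^ 2 / ν) (β + 2 * r ^ 2 / ν), g t := by
    intro g
    have e1 : ν * α - 2 * r ^ 2 = ν * (α - 2 * r ^ 2 / ν) := by field_simp
    have e2 : ν * β + 2 * r ^ 2 = ν * (β + 2 * r ^ 2 / ν) := by field_simp
    rw [e1, e2, ← integral_Ioc_eq_integral_Ioo, ← integral_Ioc_eq_integral_Ioo,
      ← intervalIntegral.integral_of_le hab,
      ← intervalIntegral.integral_of_le (mul_le_mul_of_nonneg_left hab hν.le)]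
    have e3 := intervalIntegral.integral_comp_div (a := ν * (α - 2 * r ^ 2 / ν))
      (b := ν * (β + 2 * r ^ 2 / ν)) g hν.ne'
    rw [e3, mul_div_cancel_left₀ _ hν.ne', mul_div_cancel_left₀ _ hν.ne', smul_eq_mul]
  have hcv2 : ∫ t in Ioo (ν * α - 2 * r ^ 2) (ν * β + 2 * r ^ 2),
      (enstrophy (fun x => ν⁻¹ • u (t / ν) x)) = ν⁻¹ * IY := by
    simp only [enstrophy_sm]
    rw [hchg (fun t => ν⁻¹ ^ 2 * enstrophy (u t)), integral_const_mul]
    show ν * (ν⁻¹ ^ 2 * IY) = ν⁻¹ * IY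
    field_simp
  rw [hcv2] at h1
  refine h1.trans (le_of_eq ?_)
  have e1 : ((E / ν) ^ 2 / r) ^ (2 / 23 : ℝ) * (ν⁻¹ * IY) =
      ν⁻¹ * (((E / ν) ^ 2 / r) ^ (2 / 23 : ℝ) * IY) := by ring
  have e2 : (E / ν) ^ 2 * (ν * (β - α) / r ^ 2) ^ 2 =
      ν⁻¹ * (E ^ 2 / ν * (ν * (β - α) / r ^ 2) ^ 2) := by
    field_simp
  have hν' : 0 ≤ ν⁻¹ := by positivity
  rw [e1, e2, ← mul_min_of_nonneg _ _ hν']
  ring

end Pool.Agent.Y419.NSM
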