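import Pool.Agent.Y8.Stm9
import Pool.Agent.Y496.NS.WinL2

/-!
The count on a short time interval with absolute constants (job S_WINM of helper8;
`t_WINM` follows `t_WINL2` of `Pool.Agent.Y496.NS.WinL2`).
-/

open MeasureTheory Set Metric
open scoped ContDiff

namespace Pool.Agent.Y419.NSM

open H459R3.NS W221.NS Pool.Agent.Y8 Pool.Agent.Y655.NS Pool.Agent.Y496.NS.WinL2

/-- The velocity bound at the scale `r`, when `E ^ 2 * r ≤ 1`. -/
theorem B_leM {K E r : ℝ} (hK : 0 ≤ K) (hr : 0 < r) (hr1 : r ≤ 1) (hE : E ^ 2 * r ≤ 1) :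
    (K * |E| / √(r ^ 3) + 1) * r ^ 2 ≤ K + 1 := by
  have h1 : 0 < √(r ^ 3) := Real.sqrt_pos.2 (by positivity)
  have h2 : |E| * r ^ 2 ≤ √(r ^ 3) := by
    apply Real.le_sqrt_of_sq_le
    have h5 : (|E| * r ^ 2) ^ 2 = r ^ 3 * (E ^ 2 * r) := by
      rw [mul_pow, sq_abs]; ring
    rw [h5]
    calc r ^ 3 * (E ^ 2 * r) ≤ r ^ 3 * 1 := mul_le_mul_of_nonneg_left hE (by positivity)
      _ = r ^ 3 := mul_one _
  have h3 : K * |E| / √(r ^ 3) * r ^ 2 ≤ K := by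
    rw [div_mul_eq_mul_div, div_le_iff₀ h1, mul_assoc]
    exact mul_le_mul_of_nonneg_left h2 hK
  have h4 : r ^ 2 ≤ 1 := pow_le_one₀ hr.le hr1
  linarith

theorem t_WINM : S_WFL → S_SLOW → S_ALTHM → S_C12 → S_CE → S_WINM := by
  intro hW hSl hA hC hF
  classical
  obtain ⟨K, hK, hW⟩ := hW
  obtain ⟨δ, c, δ₀, κ₀, hδ, hc, hδ₀, hA⟩ := hA
  obtain ⟨C₁, hC₁, h4⟩ := count5 (κ₀ := κ₀) hδ hc hC hF
  obtain ⟨C₂, hC₂, hSl⟩ := hSl (K + 1)
  refine ⟨C₁ + C₂, min δ₀ 1, by positivity, by positivity, ?_⟩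
  intro T E D G u p hu n i α β hn' hi hab hα hβ S hS hz
  have hn : (1 + E ^ 2) * rr n ≤ δ₀ := hn'.trans (min_le_left _ _)
  have hn1 : (1 + E ^ 2) * rr n ≤ 1 := hn'.trans (min_le_right _ _)
  have hE1 : E ^ 2 * rr n ≤ 1 := by
    have := rr_pos500 n
    nlinarith
  have hD := turb_D hu
  have hr := rr_pos500 n
  have hr1 : rr n ≤ 1 := pow_le_one₀ (by norm_num) (by norm_num)
  have hr2 : 0 < rr n ^ 2 := by positivity
  have h16 : (0:ℝ) < (16 ^ i)⁻¹ := by positivity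
  have h2n : (1 : ℝ) ≤ 2 ^ n := one_le_pow₀ (by norm_num)
  rcases S.eq_empty_or_nonempty with hSe | ⟨z₀, hz₀⟩
  · rw [hSe, Finset.card_empty, Nat.cast_zero]
    positivity
  obtain ⟨⟨hz1, hz2⟩, -, -⟩ := hz z₀ hz₀
  have hβ0 : 0 < β := by linarith
  have hrni : rr (n + i) ^ 2 < rr n ^ 2 := by
    have h5 : rr (n + i) < rr n :=
      pow_lt_pow_right_of_lt_one₀ (by norm_num) (by norm_num) (by omega)
    exact pow_lt_pow_left₀ h5 (rr_pos500 _).le two_ne_zero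
  obtain ⟨C', hC', hW⟩ := hW E (rr n) hr hr1
  obtain ⟨X, Y, hX⟩ := hW T D G u p hu β ⟨hβ0, by linarith⟩
  set Sl : ℝ × V → Prop := fun z =>
    ∀ y, ‖X z.1 y - z.2‖ < rr n / 8 → ‖y - X z.1 y‖ ≤ rr n / 8 with hSldef
  have c1 : ((S.filter Sl).card : ℝ) ≤ C₂ * D * 2 ^ n := by
    refine hSl T E D G u p hu n i α β hi hab hα hβ X Y _ C' ?_ ?_ hX (S.filter Sl)
      (sep_mono500 hS (Finset.filter_subset _ _)) ?_
    · positivity
    · exact B_leM hK.le hr hr1 hE1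
    · intro z hzS
      obtain ⟨h5, h6⟩ := Finset.mem_filter.1 hzS
      obtain ⟨h7, h8, h9⟩ := hz z h5
      exact ⟨h7, h8, h9, h6⟩
  have c2 : ((S.filter (fun z => ¬ Sl z)).card : ℝ) ≤
      C₁ * (D + E ^ 2 * (16 ^ i)⁻¹) * 2 ^ n := by
    refine h4 T E D G u p hu n i _ (sep_mono500 hS (Finset.filter_subset _ _)) ?_ ?_ ?_
    · intro z hzS
      obtain ⟨h5, -⟩ := Finset.mem_filter.1 hzS
      obtain ⟨h7, h8, -⟩ := hz z h5
      exact ⟨by linarith [h7.1], by linarith [h7.2], h8⟩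
    · intro z hzS w hwS
      obtain ⟨h5, -⟩ := Finset.mem_filter.1 hzS
      obtain ⟨h7, -, -⟩ := hz z h5
      obtain ⟨h8, -⟩ := Finset.mem_filter.1 hwS
      obtain ⟨h9, -, -⟩ := hz w h8
      rw [abs_le]
      constructor
      · linarith [h7.1, h9.2]
      · linarith [h7.2, h9.1]
    · intro z hzS
      obtain ⟨h5, h6⟩ := Finset.mem_filter.1 hzS
      obtain ⟨h7, h8, -⟩ := hz z h5
      have h6' : ∃ y, ‖X z.1 y - z.2‖ < rr n / 8 ∧ rr n / 8 < ‖y - X z.1 y‖ := by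
        by_contra hcon
        apply h6
        intro y hy
        by_contra h9
        exact hcon ⟨y, hy, not_le.1 h9⟩
      obtain ⟨y, hy1, hy2⟩ := h6'
      have hb : |β - z.1| ≤ rr (n + i) ^ 2 := by
        rw [abs_of_nonneg (by linarith [h7.2])]
        linarith [h7.1]
      refine hA T E D G u p hu n i hn z.1 z.2 (by linarith [h7.1]) (by linarith [h7.2])
        (fun t => X t y) (fun t => Y t y) _ C' (hX.path y) hy1.le
        ⟨β, hb, by linarith, ?_⟩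
      change rr n / 8 < ‖X β y - X z.1 y‖
      rw [hX.lab]
      exact hy2
  have hcard : (S.card : ℝ) = (S.filter Sl).card + (S.filter (fun z => ¬ Sl z)).card := by
    have := Finset.card_filter_add_card_filter_not (s := S) Sl
    exact_mod_cast this.symm
  have hE0 : 0 ≤ E ^ 2 * ((16:ℝ) ^ i)⁻¹ := by positivity
  have c3 : C₂ * D * 2 ^ n ≤ C₂ * (D + E ^ 2 * (16 ^ i)⁻¹) * 2 ^ n := by
    have h5 : D ≤ D + E ^ 2 * (16 ^ i)⁻¹ := by linarith
    gcongr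
  rw [hcard]
  have e : (C₁ + C₂) * (D + E ^ 2 * (16 ^ i)⁻¹) * 2 ^ n =
      C₁ * (D + E ^ 2 * (16 ^ i)⁻¹) * 2 ^ n + C₂ * (D + E ^ 2 * (16 ^ i)⁻¹) * 2 ^ n := by ring
  rw [e]
  linarith

end Pool.Agent.Y419.NSM
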